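import Pool.Agent.helper68.FY.Spec

/-!
# Project fy, row ENA
-/

set_option autoImplicit false

namespace Pool.Agent.helper68.FY

open Finset

open Classical in
theorem ENA_ri (hINT : INT_stmt) (hPHI : PHI_stmt) (ε : ℝ) (hε : 0 < ε) :
    ∃ C : ℝ, 1 ≤ C ∧ ∀ (p : ℕ) [Fact p.Prime] (G : ℕ) (B : Finset (ZMod p)), 1 ≤ G →
      7 * G ^ 2 < p → (cnt (B.offDiag.filter fun x => Phi p x ≠ 0) (ri p) G : ℝ) ≤
        C * (p : ℝ) ^ ε * (G : ℝ) ^ 2 * (B.card : ℝ) ^ 2 := by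
  obtain ⟨C, hC1, hC⟩ := hINT (ε / 3) (by positivity)
  refine ⟨2 * C, by linarith, ?_⟩
  intro p _ G B hG hGp
  set S : Finset (ZMod p × ZMod p) := B.offDiag.filter fun x => Phi p x ≠ 0 with hS
  have hmem : ∀ x ∈ S, x.1 ≠ x.2 ∧ Phi p x ≠ 0 := by
    intro x hx
    rw [hS, mem_filter, mem_offDiag] at hx
    exact ⟨hx.1.2.2, hx.2⟩
  have h1 := hC (ZMod p × ZMod p) S (Phi p) 2 G (by norm_num) hG
    (fun x hx => (hPHI p x (hmem x hx).1).2.1 (hmem x hx).2)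
    (fun x hx T hT hTp => (hPHI p x (hmem x hx).1).2.2 (hmem x hx).2 T
      (fun y hy => ⟨(hmem y (hT hy)).1, (hmem y (hT hy)).2, hTp y hy⟩))
  have h2 : (cnt S (ri p) G : ℝ) ≤ C * (2 : ℕ) * ((G : ℝ) * S.card) ^ (ε / 3) * (G : ℝ) ^ 2 * S.card :=
    h1
  have hp1 : (1 : ℝ) ≤ (p : ℝ) := by exact_mod_cast (Fact.out : p.Prime).one_le
  have hBp : B.card ≤ p := by
    have := Finset.card_le_univ B
    rwa [ZMod.card] at this
  have hSc : S.card ≤ B.card ^ 2 := by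
    calc S.card ≤ B.offDiag.card := card_filter_le _ _
      _ = B.card * B.card - B.card := offDiag_card B
      _ ≤ B.card ^ 2 := by rw [sq]; exact Nat.sub_le _ _
  have hScR : (S.card : ℝ) ≤ (B.card : ℝ) ^ 2 := by exact_mod_cast hSc
  have hBR : (B.card : ℝ) ≤ (p : ℝ) := by exact_mod_cast hBp
  have hGp' : (G : ℝ) ≤ (p : ℝ) := by
    have : G ≤ p := by nlinarith
    exact_mod_cast this
  have h3 : (G : ℝ) * S.card ≤ (p : ℝ) ^ 3 := by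
    have : (S.card : ℝ) ≤ (p : ℝ) ^ 2 :=
      hScR.trans (pow_le_pow_left₀ (Nat.cast_nonneg _) hBR 2)
    calc (G : ℝ) * S.card ≤ (p : ℝ) * (p : ℝ) ^ 2 :=
          mul_le_mul hGp' this (Nat.cast_nonneg _) (by linarith)
      _ = (p : ℝ) ^ 3 := by ring
  have h4 : ((G : ℝ) * S.card) ^ (ε / 3) ≤ (p : ℝ) ^ ε := by
    calc ((G : ℝ) * S.card) ^ (ε / 3) ≤ ((p : ℝ) ^ 3) ^ (ε / 3) :=
          Real.rpow_le_rpow (by positivity) h3 (by positivity)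
      _ = (p : ℝ) ^ ε := by
          rw [← Real.rpow_natCast, ← Real.rpow_mul (by linarith)]
          congr 1
          push_cast
          ring
  calc (cnt S (ri p) G : ℝ) ≤ C * (2 : ℕ) * ((G : ℝ) * S.card) ^ (ε / 3) * (G : ℝ) ^ 2 * S.card := h2
    _ ≤ C * (2 : ℕ) * (p : ℝ) ^ ε * (G : ℝ) ^ 2 * (B.card : ℝ) ^ 2 := by
        have h0 : (0 : ℝ) ≤ C := by linarith
        gcongr
    _ = 2 * C * (p : ℝ) ^ ε * (G : ℝ) ^ 2 * (B.card : ℝ) ^ 2 := by push_cast; ring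

theorem ENA (hSG : SG_stmt) (hINT : INT_stmt) (hPHI : PHI_stmt) : ENA_stmt := by
  intro ε hε
  obtain ⟨C, hC1, hC⟩ := ENA_ri hINT hPHI ε hε
  refine ⟨331 + C, by linarith, ?_⟩
  intro p _ G B hG hGp hpG
  have h1 := hSG p G B hG hGp
  have h2 := hC p G B hG hGp
  have hp1 : (1 : ℝ) ≤ (p : ℝ) := by exact_mod_cast (Fact.out : p.Prime).one_le
  have hs0 : 0 < Real.sqrt p := Real.sqrt_pos.mpr (by linarith)
  have hsq : (p : ℝ) ^ (1 / 2 : ℝ) = Real.sqrt p := (Real.sqrt_eq_rpow _).symm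
  have hpe : (1 : ℝ) ≤ (p : ℝ) ^ ε := Real.one_le_rpow hp1 hε.le
  -- `√p ≤ 5.5 G²`
  have h3 : Real.sqrt p ≤ 5.5 * (G : ℝ) ^ 2 := by
    rw [Real.sqrt_le_left (by positivity)]
    have : (p : ℝ) ≤ 28 * (G : ℝ) ^ 4 := by exact_mod_cast hpG
    nlinarith [pow_nonneg (Nat.cast_nonneg G : (0 : ℝ) ≤ G) 4]
  have h4 : (2 : ℝ) ≤ 11 * (G : ℝ) ^ 2 / Real.sqrt p := by
    rw [le_div_iff₀ hs0]
    linarith
  have h5 : (B.card : ℝ) ^ 4 * (2 + 320 * (G : ℝ) ^ 2 / Real.sqrt p) ≤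
      331 * ((B.card : ℝ) ^ 2 / Real.sqrt p) * (G : ℝ) ^ 2 * (B.card : ℝ) ^ 2 := by
    have : (B.card : ℝ) ^ 4 * (2 + 320 * (G : ℝ) ^ 2 / Real.sqrt p) ≤
        (B.card : ℝ) ^ 4 * (11 * (G : ℝ) ^ 2 / Real.sqrt p + 320 * (G : ℝ) ^ 2 / Real.sqrt p) := by
      gcongr
    refine this.trans (le_of_eq ?_)
    field_simp
    ring
  rw [hsq]
  set W : ℝ := (G : ℝ) ^ 2 * (B.card : ℝ) ^ 2 with hW
  have hW0 : 0 ≤ W := by positivity
  set R : ℝ := (B.card : ℝ) ^ 2 / Real.sqrt p with hR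
  have hR0 : 0 ≤ R := by positivity
  have h6 : (cnt B.offDiag (rp p) G : ℝ) ≤ 331 * R * W + C * (p : ℝ) ^ ε * W := by
    have e1 : 331 * R * (G : ℝ) ^ 2 * (B.card : ℝ) ^ 2 = 331 * R * W := by rw [hW]; ring
    have e2 : C * (p : ℝ) ^ ε * (G : ℝ) ^ 2 * (B.card : ℝ) ^ 2 = C * (p : ℝ) ^ ε * W := by
      rw [hW]; ring
    rw [e1] at h5
    rw [e2] at h2
    linarith
  have h7 : 331 * R * W ≤ 331 * (p : ℝ) ^ ε * R * W := by
    have : 331 * R * W * 1 ≤ 331 * R * W * (p : ℝ) ^ ε := by gcongr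
    linarith
  have h8 : (331 + C) * (p : ℝ) ^ ε * (1 + R) * (G : ℝ) ^ 2 * (B.card : ℝ) ^ 2 =
      331 * (p : ℝ) ^ ε * R * W + C * (p : ℝ) ^ ε * W + (331 * (p : ℝ) ^ ε * W +
        C * (p : ℝ) ^ ε * R * W) := by
    rw [hW]; ring
  rw [h8]
  have h9 : 0 ≤ 331 * (p : ℝ) ^ ε * W + C * (p : ℝ) ^ ε * R * W := by positivity
  linarith

end Pool.Agent.helper68.FY
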